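import Pool.Agent.Lib_helper65.PropB.Defs
import Pool.Agent.Lib_helper90.PB.Exist

/-!
# The value of `m(n,4)` (MP_9a3d30_co): from the lower bound for families to `m(n,4)`
-/

namespace Pool.Agent.PB22

open Finset Pool.Agent.PropB65

/-- There is a family without property `B(s)`: all `n`-subsets of a set of `2n` elements. -/
theorem exists_fam {n s : ℕ} (hs : 1 ≤ s) (hsn : s ≤ n) :
    ∃ F : Finset (Finset ℕ), (∀ A ∈ F, A.card = n) ∧ ¬ HasB s F := by
  refine ⟨(range (2 * n)).powersetCard n, fun A hA => (mem_powersetCard.1 hA).2, ?_⟩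
  rintro ⟨S, -, hS⟩
  rcases le_or_gt (range (2 * n) ∩ S).card n with h | h
  · -- an edge disjoint from `S`
    have h1 : n ≤ (range (2 * n) \ S).card := by
      have h2 := card_sdiff_add_card_inter (range (2 * n)) S
      rw [card_range] at h2
      omega
    obtain ⟨A, hA, hc⟩ := exists_subset_card_eq h1
    have h2 := (hS A (mem_powersetCard.2 ⟨hA.trans sdiff_subset, hc⟩)).1
    have h3 : A ∩ S = ∅ := by
      rw [← disjoint_iff_inter_eq_empty]
      exact disjoint_of_subset_left hA sdiff_disjoint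
    rw [h3, card_empty] at h2
    exact lt_irrefl _ h2
  · -- an edge contained in `S`
    obtain ⟨A, hA, hc⟩ := exists_subset_card_eq h.le
    have h2 := (hS A (mem_powersetCard.2 ⟨hA.trans inter_subset_left, hc⟩)).2
    have h3 : A ∩ S = A := inter_eq_left.2 (hA.trans inter_subset_right)
    rw [h3, hc] at h2
    omega

/-- from families to `m(n,4)` -/
theorem value (h : ∀ n : ℕ, 4 ≤ n → ∀ F : Finset (Finset ℕ), (∀ A ∈ F, A.card = n) →
      ¬ HasB 4 F → 15 ≤ F.card) :
    (∀ n : ℕ, 4 ≤ n → 15 ≤ m n 4) ∧ ∀ n : ℕ, 0 < n → 8 ∣ n → m n 4 = 15 := by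
  have h1 : ∀ n : ℕ, 4 ≤ n → 15 ≤ m n 4 := by
    intro n hn
    unfold m
    obtain ⟨F, hF, hB⟩ := exists_fam (n := n) (s := 4) (by norm_num) hn
    refine le_csInf ⟨_, F, rfl, hF, hB⟩ ?_
    rintro k ⟨F', rfl, hF', hB'⟩
    exact h n hn F' hF' hB'
  refine ⟨h1, fun n hn h8 => le_antisymm ?_ (h1 n (by
    obtain ⟨k, rfl⟩ := h8
    omega))⟩
  obtain ⟨F, hF, -, hB, hc⟩ := Pool.Agent.PB90.exist (n := n) (s := 4) (by norm_num) hn (by
    simpa using h8)
  exact Nat.sInf_le ⟨F, by rw [hc]; norm_num, hF, hB⟩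

end Pool.Agent.PB22
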