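import Pool.Agent.Lib_helper36.PB.Red

/-!
# A weighted system of types on at most 14 edges has total weight greater than 2
-/

namespace Pool.Agent.PB22

open Finset Pool.Agent.PB36

variable {m : ℕ}

/-- the number of blocks (edges and complements of edges) which contain all picks -/
def bl (L : List (Finset (Fin m))) : ℕ :=
  (univ.filter fun i : Fin m => ∀ T ∈ L, i ∈ T).card +
    (univ.filter fun i : Fin m => ∀ T ∈ L, i ∉ T).card

theorem bl_cast (L : List (Finset (Fin m))) : (bl L : ℝ) =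
    ∑ i : Fin m, ((if ∀ T ∈ L, i ∈ T then 1 else 0) + if ∀ T ∈ L, i ∉ T then 1 else 0) := by
  rw [sum_add_distrib, bl, Nat.cast_add, card_filter, card_filter]
  push_cast
  rfl

theorem bl_single (T : Finset (Fin m)) : bl [T] = m := by
  unfold bl
  simp only [List.mem_singleton, forall_eq]
  rw [card_filter_add_card_filter_not (p := fun i => i ∈ T)]
  simp

/-- the step -/
theorem bl_step (w' : Finset (Fin m) → ℝ) (h0 : ∀ T, 0 ≤ w' T) (h2 : ∑ T, w' T = 2)
    (h1 : ∀ i : Fin m, ∑ T, (if i ∈ T then w' T else 0) = 1) (T₀ : Finset (Fin m))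
    (hT₀ : 0 < w' T₀) (L : List (Finset (Fin m))) (hL : T₀ ∈ L) (hb : 0 < bl L) :
    ∃ T, 0 < w' T ∧ 2 * bl (T :: L) < bl L := by
  by_contra hcon
  push Not at hcon
  -- the sum
  have hin : ∀ i : Fin m, ∑ T, w' T * (if i ∈ T then 1 else 0) = 1 := by
    intro i
    refine Eq.trans (sum_congr rfl fun T _ => ?_) (h1 i)
    split_ifs <;> simp
  have hout : ∀ i : Fin m, ∑ T, w' T * (if i ∉ T then 1 else 0) = 1 := by
    intro i
    have : ∑ T, w' T * (if i ∉ T then 1 else 0) = ∑ T, w' T -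
        ∑ T, w' T * (if i ∈ T then 1 else 0) := by
      rw [← sum_sub_distrib]
      exact sum_congr rfl fun T _ => by by_cases h : i ∈ T <;> simp [h]
    rw [this, h2, hin]
    norm_num
  have hsum : ∑ T, w' T * (bl (T :: L) : ℝ) = bl L := by
    have e : ∀ T, w' T * (bl (T :: L) : ℝ) = ∑ i : Fin m,
        ((w' T * (if i ∈ T then 1 else 0)) * (if ∀ S ∈ L, i ∈ S then 1 else 0) +
          (w' T * (if i ∉ T then 1 else 0)) * (if ∀ S ∈ L, i ∉ S then 1 else 0)) := by
      intro T
      rw [bl_cast, mul_sum]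
      refine sum_congr rfl fun i _ => ?_
      simp only [List.forall_mem_cons]
      by_cases h : i ∈ T <;> simp [h]
    simp only [e]
    rw [sum_comm, bl_cast]
    refine sum_congr rfl fun i _ => ?_
    rw [sum_add_distrib, ← sum_mul, ← sum_mul, hin, hout, one_mul, one_mul]
  have hself : bl (T₀ :: L) = bl L := by
    unfold bl
    congr 2
    · ext i
      simp only [mem_filter, mem_univ, true_and, List.forall_mem_cons]
      exact ⟨fun h => h.2, fun h => ⟨h _ hL, h⟩⟩
    · ext i
      simp only [mem_filter, mem_univ, true_and, List.forall_mem_cons]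
      exact ⟨fun h => h.2, fun h => ⟨h _ hL, h⟩⟩
  have hlt : ∑ T, w' T * ((bl L : ℝ) / 2) < ∑ T, w' T * (bl (T :: L) : ℝ) := by
    refine sum_lt_sum (fun T _ => ?_) ⟨T₀, mem_univ _, ?_⟩
    · rcases (h0 T).eq_or_lt with h | h
      · rw [← h, zero_mul, zero_mul]
      · refine mul_le_mul_of_nonneg_left ?_ h.le
        have h3 : ((bl L : ℕ) : ℝ) ≤ ((2 * bl (T :: L) : ℕ) : ℝ) := by exact_mod_cast hcon T h
        push_cast at h3
        linarith
    · rw [hself]
      refine mul_lt_mul_of_pos_left ?_ hT₀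
      have h3 : (0 : ℝ) < bl L := by exact_mod_cast hb
      linarith
  rw [hsum, ← sum_mul, h2] at hlt
  linarith

/-- **the total weight is greater than 2** -/
theorem tot_gt {w : Finset (Fin m) → ℝ} (hw : w ∈ Feas m) (hm : m ≤ 14) : 2 < tot w := by
  classical
  by_contra hcon
  push Not at hcon
  obtain ⟨h0, he, hs, hg⟩ := hw
  have hm0 : 0 < m := by
    rcases Nat.eq_zero_or_pos m with rfl | h
    · have h1 := hg ∅ (fun i => i.elim0)
      simp at h1
    · exact h
  set w' : Finset (Fin m) → ℝ := fun T => if T = ∅ then 2 - tot w else w T with hw'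
  have hw'0 : ∀ T, 0 ≤ w' T := by
    intro T
    simp only [hw']
    split_ifs
    · linarith
    · exact h0 T
  have hw'2 : ∑ T, w' T = 2 := by
    have h1 : ∑ T, w' T = ∑ T, (w T + if T = ∅ then 2 - tot w else 0) := by
      refine sum_congr rfl fun T _ => ?_
      simp only [hw']
      split_ifs with h
      · rw [h, he, zero_add]
      · rw [add_zero]
    rw [h1, sum_add_distrib, sum_ite_eq' univ ∅]
    simp only [mem_univ, if_true, tot]
    ring
  have hw'1 : ∀ i : Fin m, ∑ T, (if i ∈ T then w' T else 0) = 1 := by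
    intro i
    rw [← hs i, sum_filter]
    refine sum_congr rfl fun T _ => ?_
    split_ifs with h
    · simp only [hw']
      rw [if_neg (ne_empty_of_mem h)]
    · rfl
  obtain ⟨T₁, hT₁⟩ : ∃ T, 0 < w' T := by
    by_contra h
    push Not at h
    have : ∑ T, w' T ≤ 0 := sum_nonpos fun T _ => h T
    linarith
  -- four picks
  have hpos : ∀ L : List (Finset (Fin m)), (∀ i, ¬ ((∀ T ∈ L, i ∈ T) ∨ ∀ T ∈ L, i ∉ T)) ∨
      0 < bl L := by
    intro L
    rcases Nat.eq_zero_or_pos (bl L) with h | h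
    · left
      intro i hi
      unfold bl at h
      rcases hi with hi | hi
      · have : 0 < (univ.filter fun i : Fin m => ∀ T ∈ L, i ∈ T).card :=
          card_pos.2 ⟨i, by simpa using hi⟩
        omega
      · have : 0 < (univ.filter fun i : Fin m => ∀ T ∈ L, i ∉ T).card :=
          card_pos.2 ⟨i, by simpa using hi⟩
        omega
    · exact Or.inr h
  have hfin : ∃ L : List (Finset (Fin m)), L.length ≤ 4 ∧ (∀ T ∈ L, 0 < w' T) ∧
      ∀ i, ¬ ((∀ T ∈ L, i ∈ T) ∨ ∀ T ∈ L, i ∉ T) := by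
    have hb1 : bl [T₁] = m := bl_single T₁
    have hp1 : 0 < bl [T₁] := by omega
    obtain ⟨T₂, hT₂, hb2⟩ := bl_step w' hw'0 hw'2 hw'1 T₁ hT₁ [T₁] (by simp) hp1
    rcases hpos [T₂, T₁] with h | hp2
    · exact ⟨[T₂, T₁], by simp, by simp [hT₁, hT₂], h⟩
    obtain ⟨T₃, hT₃, hb3⟩ := bl_step w' hw'0 hw'2 hw'1 T₁ hT₁ [T₂, T₁] (by simp) hp2
    rcases hpos [T₃, T₂, T₁] with h | hp3
    · exact ⟨[T₃, T₂, T₁], by simp, by simp [hT₁, hT₂, hT₃], h⟩
    obtain ⟨T₄, hT₄, hb4⟩ := bl_step w' hw'0 hw'2 hw'1 T₁ hT₁ [T₃, T₂, T₁] (by simp) hp3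
    rcases hpos [T₄, T₃, T₂, T₁] with h | hp4
    · exact ⟨[T₄, T₃, T₂, T₁], by simp, by simp [hT₁, hT₂, hT₃, hT₄], h⟩
    omega
  obtain ⟨L, hlen, hLw, hL⟩ := hfin
  -- the good family
  have hgood : Good (L.toFinset.erase ∅) := by
    intro i
    have h1 := hL i
    push Not at h1
    obtain ⟨⟨A, hA, hiA⟩, B, hB, hiB⟩ := h1
    constructor
    · exact card_pos.2 ⟨B, by
        rw [mem_filter, mem_erase, List.mem_toFinset]
        exact ⟨⟨ne_empty_of_mem hiB, hB⟩, hiB⟩⟩
    · have h2 : ((L.toFinset.erase ∅).filter (i ∈ ·)) ⊆ L.toFinset.erase A := by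
        intro T hT
        rw [mem_filter, mem_erase] at hT
        rw [mem_erase]
        exact ⟨fun h => hiA (h ▸ hT.2), hT.1.2⟩
      have h3 := card_le_card h2
      rw [card_erase_of_mem (List.mem_toFinset.2 hA)] at h3
      have h4 := L.toFinset_card_le
      omega
  have h1 := hg _ hgood
  have h2 : 0 < ∏ T ∈ L.toFinset.erase ∅, w T := by
    refine prod_pos fun T hT => ?_
    rw [mem_erase, List.mem_toFinset] at hT
    have h3 := hLw T hT.2
    simp only [hw'] at h3
    rwa [if_neg hT.1] at h3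
  linarith

end Pool.Agent.PB22
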