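import Pool.Agent.Lib_helper65.PropB.Defs

/-!
# Upper bounds for `m(n,4)` from systems of types (MP_9a3d30_co)

A system of types on `E` edges is a list of bit masks `t k < 2 ^ E` with multiplicities `x k`; the
edge `i` consists of all the vertices whose type has bit `i`. If no subfamily of the types covers
every edge one, two or three times, the family does not have property `B(4)`.
-/

namespace Pool.Agent.PB22U

open Finset Pool.Agent.PropB65

/-- `true` if no subfamily of the list covers every bit of `full`, none more than three times
(the bits of `c1`, `c2`, `c3` are those already covered at least 1, 2, 3 times) -/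
def ng (full : ℕ) : List ℕ → ℕ → ℕ → ℕ → Bool
  | [], c1, _, _ => c1 != full
  | t :: L, c1, c2, c3 =>
    ng full L c1 c2 c3 &&
      (t &&& c3 != 0 || ng full L (c1 ||| t) (c2 ||| (c1 &&& t)) (c3 ||| (c2 &&& t)))

theorem ng_sound {full : ℕ} (L : List ℕ) : ∀ (c1 c2 c3 : ℕ) (b : ℕ → ℕ),
    ng full L c1 c2 c3 = true → (∀ i, c1.testBit i = decide (1 ≤ b i)) →
    (∀ i, c2.testBit i = decide (2 ≤ b i)) → (∀ i, c3.testBit i = decide (3 ≤ b i)) →
    ∀ Z : List ℕ, Z.Sublist L → (∀ i, b i + Z.countP (fun t => t.testBit i) ≤ 3) →
    (∀ i, full.testBit i = decide (1 ≤ b i + Z.countP (fun t => t.testBit i))) → False := by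
  induction L with
  | nil =>
    intro c1 c2 c3 b h h1 h2 h3 Z hZ hle hfull
    have hZ' : Z = [] := List.sublist_nil.1 hZ
    subst hZ'
    have h4 : c1 ≠ full := by simpa [ng] using h
    exact h4 (Nat.eq_of_testBit_eq fun i => by rw [h1, hfull]; simp)
  | cons t L ih =>
    intro c1 c2 c3 b h h1 h2 h3 Z hZ hle hfull
    rw [ng, Bool.and_eq_true, Bool.or_eq_true] at h
    obtain ⟨ha, hb⟩ := h
    cases hZ with
    | cons _ hZ => exact ih c1 c2 c3 b ha h1 h2 h3 Z hZ hle hfull
    | cons_cons _ hZ =>
      rename_i Z'
      have hcount : ∀ i, (t :: Z').countP (fun t => t.testBit i) =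
          Z'.countP (fun t => t.testBit i) + if t.testBit i then 1 else 0 := fun i => by
        rw [List.countP_cons]
      rcases hb with hb | hb
      · have h4 : t &&& c3 ≠ 0 := by simpa using hb
        obtain ⟨i, hi⟩ := Nat.exists_testBit_of_ne_zero h4
        rw [Nat.testBit_and, Bool.and_eq_true, h3, decide_eq_true_eq] at hi
        have h5 := hle i
        rw [hcount, if_pos hi.1] at h5
        omega
      · refine ih _ _ _ (fun i => b i + if t.testBit i then 1 else 0) hb ?_ ?_ ?_ Z' hZ ?_ ?_
        · intro i
          rw [Nat.testBit_or, h1]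
          by_cases h5 : t.testBit i = true <;> simp [h5]
        · intro i
          rw [Nat.testBit_or, Nat.testBit_and, h1, h2]
          by_cases h5 : t.testBit i = true
          · simp only [h5, Bool.and_true, if_true]
            rw [← Bool.decide_or]
            congr 1
            apply propext
            omega
          · simp [h5]
        · intro i
          rw [Nat.testBit_or, Nat.testBit_and, h2, h3]
          by_cases h5 : t.testBit i = true
          · simp only [h5, Bool.and_true, if_true]
            rw [← Bool.decide_or]
            congr 1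
            apply propext
            omega
          · simp [h5]
        · intro i
          have h5 := hle i
          rw [hcount] at h5
          show b i + (if t.testBit i then 1 else 0) + _ ≤ 3
          omega
        · intro i
          rw [hfull, hcount]
          congr 1
          apply propext
          show _ ↔ 1 ≤ b i + (if t.testBit i then 1 else 0) + _
          omega

/-- the edge `i` -/
def edge {K : ℕ} (t x : Fin K → ℕ) (i : ℕ) : Finset ℕ :=
  (univ.filter fun k => (t k).testBit i = true).biUnion
    fun k => (range (x k)).image (Nat.pair k.1)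

theorem mem_edge {K : ℕ} {t x : Fin K → ℕ} {i v : ℕ} : v ∈ edge t x i ↔
    ∃ k : Fin K, (t k).testBit i = true ∧ ∃ j < x k, Nat.pair k.1 j = v := by
  simp [edge]

theorem card_edge {K : ℕ} (t x : Fin K → ℕ) (i : ℕ) :
    (edge t x i).card = ∑ k, if (t k).testBit i = true then x k else 0 := by
  rw [edge, card_biUnion, ← sum_filter]
  · refine sum_congr rfl fun k _ => ?_
    rw [card_image_of_injective, card_range]
    intro a b h
    exact (Nat.pair_eq_pair.1 h).2
  · intro k _ l _ hkl
    refine Finset.disjoint_left.2 fun v hv hv' => ?_
    obtain ⟨a, -, ha⟩ := mem_image.1 hv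
    obtain ⟨b, -, hb⟩ := mem_image.1 hv'
    rw [← hb] at ha
    exact hkl (Fin.ext (Nat.pair_eq_pair.1 ha).1)

/-- **the construction**: a system of types on `E` edges without good subfamily gives
`m(n,4) ≤ E` -/
theorem upper {K E n : ℕ} (t x : Fin K → ℕ) (ht : ∀ k, t k < 2 ^ E)
    (hng : ng (2 ^ E - 1) ((List.finRange K).map t) 0 0 0 = true)
    (hx : ∀ i < E, ∑ k, (if (t k).testBit i = true then x k else 0) = n) :
    m n 4 ≤ E := by
  classical
  have hcard : ((range E).image (edge t x)).card ≤ E := by
    refine card_image_le.trans ?_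
    rw [card_range]
  refine le_trans (Nat.sInf_le ⟨(range E).image (edge t x), rfl, ?_, ?_⟩) hcard
  · intro A hA
    obtain ⟨i, hi, rfl⟩ := mem_image.1 hA
    rw [card_edge, hx i (mem_range.1 hi)]
  · rintro ⟨S, -, hS⟩
    set Z : Finset (Fin K) := univ.filter fun k => ∃ j < x k, Nat.pair k.1 j ∈ S with hZ
    have hcnt : ∀ i, (((List.finRange K).filter fun k => k ∈ Z).map t).countP
        (fun t => t.testBit i) = (Z.filter fun k => (t k).testBit i = true).card := by
      intro i
      rw [List.countP_map, List.countP_eq_length_filter, List.filter_filter]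
      have h1 : (Z.filter fun k => (t k).testBit i = true) =
          univ.filter fun k => (t k).testBit i = true ∧ k ∈ Z := by
        ext k
        simp [and_comm]
      rw [h1]
      have h2 : ((univ : Finset (Fin K)).filter fun k => (t k).testBit i = true ∧ k ∈ Z).card =
          ((List.finRange K).filter fun k => decide ((t k).testBit i = true ∧ k ∈ Z)).length := rfl
      rw [h2]
      congr 2
      funext k
      simp
    have hge : ∀ i < E, 1 ≤ (Z.filter fun k => (t k).testBit i = true).card := by
      intro i hi
      have h1 := (hS (edge t x i) (mem_image_of_mem _ (mem_range.2 hi))).1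
      obtain ⟨v, hv⟩ := card_pos.1 h1
      rw [mem_inter, mem_edge] at hv
      obtain ⟨⟨k, hk, j, hj, rfl⟩, hv⟩ := hv
      exact card_pos.2 ⟨k, mem_filter.2 ⟨mem_filter.2 ⟨mem_univ _, j, hj, hv⟩, hk⟩⟩
    have hle : ∀ i < E, (Z.filter fun k => (t k).testBit i = true).card ≤ 3 := by
      intro i hi
      have h1 := (hS (edge t x i) (mem_image_of_mem _ (mem_range.2 hi))).2
      have h2 : ((Z.filter fun k => (t k).testBit i = true).image fun k => k.1) ⊆
          (edge t x i ∩ S).image fun v => (Nat.unpair v).1 := by
        intro a ha
        obtain ⟨k, hk, rfl⟩ := mem_image.1 ha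
        obtain ⟨hk1, hk2⟩ := mem_filter.1 hk
        obtain ⟨-, j, hj, hjS⟩ := mem_filter.1 hk1
        refine mem_image.2 ⟨Nat.pair k.1 j, mem_inter.2 ⟨mem_edge.2 ⟨k, hk2, j, hj, rfl⟩, hjS⟩, ?_⟩
        rw [Nat.unpair_pair]
      have h3 := (card_le_card h2).trans card_image_le
      rw [card_image_of_injective _ Fin.val_injective] at h3
      omega
    have hzero : ∀ i, E ≤ i → (Z.filter fun k => (t k).testBit i = true).card = 0 := by
      intro i hi
      rw [card_eq_zero, filter_eq_empty_iff]
      intro k _ h1
      rw [Nat.testBit_lt_two_pow ((ht k).trans_le (Nat.pow_le_pow_right (by norm_num) hi))] at h1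
      exact Bool.noConfusion h1
    refine ng_sound _ 0 0 0 (fun _ => 0) hng (by simp) (by simp) (by simp)
      (((List.finRange K).filter fun k => k ∈ Z).map t) (List.filter_sublist.map t) ?_ ?_
    · intro i
      rw [hcnt]
      rcases lt_or_ge i E with h | h
      · simpa using hle i h
      · simp [hzero i h]
    · intro i
      rw [hcnt, Nat.testBit_two_pow_sub_one]
      rcases lt_or_ge i E with h | h
      · simp [h, hge i h]
      · simp [hzero i h, not_lt.2 h]

end Pool.Agent.PB22U
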