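import Pool.Agent.Lib_helper22.PB.Up

/-!
# Three systems of types (MP_9a3d30_co): `m(n,4) ≤ 16, 17, 22`

* `t16`: the complements of the hyperplanes of `PG(3,2)`, one of them split into two edges.
* `t17`: the 16 odd cuts of the complete graph on 6 vertices, the edges of the family being the 15
  edges of the graph and one more edge (the six cuts around one vertex), which is split in two.
* `t22`: the complements of the hyperplanes of `PG(3,2)`, seven of them split.
-/

namespace Pool.Agent.PB22U

open Finset Pool.Agent.PropB65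

/-- the types (bit masks) -/
def t16 : Fin 17 → ℕ :=
    ![21845, 54612, 54613, 26214, 45875, 30840, 44333, 7710, 52043, 32640, 43733, 6630, 52403,
    2040, 53933, 24990, 46283]

/-- the multiplicities -/
def x16 (q : ℕ) : Fin 17 → ℕ :=
    ![4, 4, (q - 7), q, (q + 1), q, (q + 1), q, (q + 1), q, (q + 1), q, (q + 1), q, (q + 1), q,
    (q + 1)]

/-- the types (bit masks) -/
def t17 : Fin 18 → ℕ :=
    ![4060, 13242, 21878, 26862, 15481, 23221, 26413, 26323, 23371, 15751, 98785, 101922, 111172,
    119944, 125200, 32799, 65567, 98335]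

/-- the multiplicities -/
def x17 (b s c : ℕ) : Fin 18 → ℕ :=
    ![b, b, b, b, b, b, b, b, b, b, s, s, s, s, s, c, c, (s - 2 * c)]

/-- the types (bit masks) -/
def t22 : Fin 21 → ℕ :=
    ![2807040, 21845, 2807125, 3368516, 2254438, 3368550, 1684275, 3962992, 3700856, 3963000,
    1486125, 990750, 2476875, 32640, 2796245, 3348966, 1690803, 3934200, 1495725, 1008030,
    2471115]

/-- the multiplicities -/
def x22 (q r : ℕ) : Fin 21 → ℕ :=
    ![r, r, (q - 2 * r), r, r, (q - 2 * r), q, r, r, (q - 2 * r), q, q, q, (q - r), q, q, q, q,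
    q, q, q]

theorem ng16 : ng (2 ^ 16 - 1) ((List.finRange 17).map t16) 0 0 0 = true := by
  decide +kernel

theorem lt16 : ∀ k, t16 k < 2 ^ 16 := by
  decide

theorem ng17 : ng (2 ^ 17 - 1) ((List.finRange 18).map t17) 0 0 0 = true := by
  decide +kernel

theorem lt17 : ∀ k, t17 k < 2 ^ 17 := by
  decide

theorem ng22 : ng (2 ^ 22 - 1) ((List.finRange 21).map t22) 0 0 0 = true := by
  decide +kernel

theorem lt22 : ∀ k, t22 k < 2 ^ 22 := by
  decide

end Pool.Agent.PB22U
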