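import Pool.Agent.Lib_helper22.PB.UpData
import Pool.Agent.Lib_helper90.PB.Exist

/-!
# Upper bounds for `m(n,4)` (MP_9a3d30_co)
-/

namespace Pool.Agent.PB22U

open Finset Pool.Agent.PropB65

theorem sum16 {q : ℕ} (hq : 7 ≤ q) : ∀ i < 16,
    ∑ k, (if (t16 k).testBit i = true then x16 q k else 0) = 8 * q + 4 := by
  intro i hi
  interval_cases i <;>
  · simp only [Fin.sum_univ_succ, t16, x16, Nat.testBit]
    simp
    omega

theorem sum17 {n b s c : ℕ} (h1 : 2 * s + 6 * b = n) (h2 : 6 * s = n + c) (h3 : 2 * c ≤ s) :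
    ∀ i < 17, ∑ k, (if (t17 k).testBit i = true then x17 b s c k else 0) = n := by
  intro i hi
  interval_cases i <;>
  · simp only [Fin.sum_univ_succ, t17, x17, Nat.testBit]
    simp
    omega

theorem sum22 {n q r : ℕ} (h1 : n + r = 8 * q) (h2 : 2 * r ≤ q) :
    ∀ i < 22, ∑ k, (if (t22 k).testBit i = true then x22 q r k else 0) = n := by
  intro i hi
  interval_cases i <;>
  · simp only [Fin.sum_univ_succ, t22, x22, Nat.testBit]
    simp
    omega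

/-- `m(n,4) ≤ 16` if `n = 8 q + 4`, `q ≥ 7` -/
theorem le16 {q : ℕ} (hq : 7 ≤ q) : m (8 * q + 4) 4 ≤ 16 :=
  upper t16 (x16 q) lt16 ng16 (sum16 hq)

/-- `m(n,4) ≤ 16` for all `n ≥ 60` divisible by `4` -/
theorem le16' {n : ℕ} (hn : 60 ≤ n) (hd : 4 ∣ n) : m n 4 ≤ 16 := by
  obtain ⟨k, rfl⟩ := hd
  rcases Nat.even_or_odd' k with ⟨q, rfl | rfl⟩
  · obtain ⟨F, hF, -, hB, hc⟩ := Pool.Agent.PB90.exist (n := 4 * (2 * q)) (s := 4) (by norm_num)
      (by omega) (by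
        norm_num
        exact ⟨q, by ring⟩)
    have h1 : m (4 * (2 * q)) 4 ≤ 15 := Nat.sInf_le ⟨F, by rw [hc]; norm_num, hF, hB⟩
    omega
  · have h1 := le16 (q := q) (by omega)
    have h2 : 4 * (2 * q + 1) = 8 * q + 4 := by ring
    rw [h2]
    exact h1

/-- `m(n,4) ≤ 17` for all even `n ≥ 172` -/
theorem le17 {n : ℕ} (hn : 172 ≤ n) (he : 2 ∣ n) : m n 4 ≤ 17 := by
  obtain ⟨k, rfl⟩ := he
  refine upper t17 (x17 (2 * k / 9) (k - 3 * (2 * k / 9)) (2 * (2 * k - 9 * (2 * k / 9))))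
    lt17 ng17 (sum17 ?_ ?_ ?_) <;> omega

/-- `m(n,4) ≤ 22` for all `n ≥ 98` -/
theorem le22 {n : ℕ} (hn : 98 ≤ n) : m n 4 ≤ 22 := by
  refine upper t22 (x22 ((n + 7) / 8) (8 * ((n + 7) / 8) - n)) lt22 ng22 (sum22 ?_ ?_) <;> omega

end Pool.Agent.PB22U
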