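import Pool.Agent.Lib_helper65.PropB.Defs
import Pool.Agent.Lib_helper90.PB.Exist

/-!
# Upper bounds for `m(n,s)` for all large `n` (MP_9a3d30_co)

The family of the complements of the hyperplanes of `PG(s-1,2)`, with classes of unequal size; the
edges which are too large are replaced by two `n`-subsets, obtained by removing two disjoint
subsets of one class.
-/

set_option autoImplicit false

namespace Pool.Agent.PB22U

open Finset Pool.Agent.PropB65 Pool.Agent.PB90

section

variable {s q : ℕ}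

/-- **the splitting lemma** -/
theorem split_not (hs : 1 ≤ s) (D : Finset ((Fin s → ZMod 2) × Fin q))
    (R R' : (Fin s → ZMod 2) → Finset ((Fin s → ZMod 2) × Fin q))
    (hd : ∀ y, ∀ x ∈ R y, x ∉ R' y)
    (hw : ∀ y, ∃ w, (∀ x ∈ R y, x.1 = w) ∧ ∀ x ∈ R' y, x.1 = w)
    (F : Finset (Finset ℕ))
    (h1 : ∀ y, y ≠ 0 → ((D.filter fun x => y ⬝ᵥ x.1 = 1) \ R y).map (io s q) ∈ F)
    (h2 : ∀ y, y ≠ 0 → ((D.filter fun x => y ⬝ᵥ x.1 = 1) \ R' y).map (io s q) ∈ F) :
    ¬ HasB s F := by
  rintro ⟨S, -, hB⟩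
  let P : Set (Fin s → ZMod 2) := {x | ∃ i : Fin q, (x, i) ∈ D ∧ io s q (x, i) ∈ S}
  by_cases hP : Submodule.span (ZMod 2) P = ⊤
  · let bs := Module.Basis.ofSpan (le_of_eq hP.symm)
    have hbs : Set.range bs ⊆ P := Module.Basis.ofSpan_subset (le_of_eq hP.symm)
    obtain ⟨y, hy⟩ := dual_vec (bs.constr ℕ (fun _ => (1 : ZMod 2)))
    have hf : ∀ j, y ⬝ᵥ bs j = 1 := fun j => (hy _).trans (bs.constr_basis ℕ _ j)
    have hfin := Module.Finite.finite_basis bs
    have hcard := Module.finrank_eq_nat_card_basis bs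
    rw [Module.finrank_fin_fun] at hcard
    have hy0 : y ≠ 0 := by
      intro h
      have h1 : 0 < Nat.card _ := lt_of_lt_of_le hs (le_of_eq hcard)
      obtain ⟨⟨j⟩, -⟩ := Nat.card_pos_iff.1 h1
      have h2 := hf j
      rw [h, zero_dotProduct] at h2
      exact zero_ne_one h2
    have hex : ∀ j, ∃ i : Fin q, (bs j, i) ∈ D ∧ io s q (bs j, i) ∈ S := fun j => hbs ⟨j, rfl⟩
    choose g hg using hex
    -- a set `Q` of removed vertices which avoids all the chosen vertices gives the contradiction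
    have key : ∀ Q : Finset ((Fin s → ZMod 2) × Fin q),
        ((D.filter fun x => y ⬝ᵥ x.1 = 1) \ Q).map (io s q) ∈ F →
        (∀ j, (bs j, g j) ∉ Q) → False := by
      intro Q hQ hQ'
      have h3 : ∀ j, io s q (bs j, g j) ∈
          ((D.filter fun x => y ⬝ᵥ x.1 = 1) \ Q).map (io s q) ∩ S := by
        intro j
        rw [Finset.mem_inter, Finset.mem_map']
        exact ⟨Finset.mem_sdiff.2 ⟨Finset.mem_filter.2 ⟨(hg j).1, hf j⟩, hQ' j⟩, (hg j).2⟩
      have h4 : Nat.card _ ≤ Nat.card {x // x ∈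
          ((D.filter fun x => y ⬝ᵥ x.1 = 1) \ Q).map (io s q) ∩ S} :=
        Nat.card_le_card_of_injective (fun j => (⟨io s q (bs j, g j), h3 j⟩ : {x // x ∈
          ((D.filter fun x => y ⬝ᵥ x.1 = 1) \ Q).map (io s q) ∩ S}))
          (by
            intro j k h
            have h5 := (io s q).injective (congrArg Subtype.val h)
            exact bs.injective (congrArg Prod.fst h5))
      rw [← hcard, Nat.card_eq_fintype_card, Fintype.card_coe] at h4
      have h5 := (hB _ hQ).2
      omega
    by_cases hj : ∀ j, (bs j, g j) ∉ R y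
    · exact key _ (h1 y hy0) hj
    · push Not at hj
      obtain ⟨j0, hj0⟩ := hj
      refine key _ (h2 y hy0) fun j hj' => ?_
      obtain ⟨w, hw1, hw2⟩ := hw y
      have h3 : bs j0 = w := hw1 _ hj0
      have h4 : bs j = w := hw2 _ hj'
      have h5 : j = j0 := bs.injective (h4.trans h3.symm)
      subst h5
      exact hd y _ hj0 hj'
  · obtain ⟨f, hf0, hf⟩ := Submodule.exists_le_ker_of_lt_top _ (lt_top_iff_ne_top.2 hP)
    obtain ⟨y, hy⟩ := dual_vec f
    have hy0 : y ≠ 0 := by
      intro h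
      apply hf0
      ext x
      have h2 := hy (Pi.single x 1)
      rw [h, zero_dotProduct] at h2
      simpa using h2.symm
    have h5 := (hB _ (h1 y hy0)).1
    rw [Finset.card_pos] at h5
    obtain ⟨v, hv⟩ := h5
    rw [Finset.mem_inter, Finset.mem_map] at hv
    obtain ⟨⟨⟨x, i⟩, hx, rfl⟩, hv⟩ := hv
    obtain ⟨hxD, hx1⟩ := Finset.mem_filter.1 (Finset.mem_sdiff.1 hx).1
    have h6 : x ∈ LinearMap.ker f := hf (Submodule.subset_span ⟨i, hxD, hv⟩)
    rw [LinearMap.mem_ker, ← hy] at h6
    rw [h6] at hx1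
    exact zero_ne_one hx1

/-- the subspace of the vectors supported on the coordinates `≤ j` -/
def U (j : Fin s) : Finset (Fin s → ZMod 2) :=
  Fintype.piFinset fun i => if i ≤ j then univ else {0}

/-- the subspace of the vectors supported on the coordinates `> j` -/
def U' (j : Fin s) : Finset (Fin s → ZMod 2) :=
  Fintype.piFinset fun i => if i ≤ j then {0} else univ

theorem mem_U {j : Fin s} {v : Fin s → ZMod 2} : v ∈ U j ↔ ∀ i, j < i → v i = 0 := by
  unfold U
  rw [Fintype.mem_piFinset]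
  refine forall_congr' fun i => ?_
  rcases le_or_gt i j with h | h
  · simp [h, not_lt.2 h]
  · simp [h, not_le.2 h]

theorem mem_U' {j : Fin s} {v : Fin s → ZMod 2} : v ∈ U' j ↔ ∀ i, i ≤ j → v i = 0 := by
  unfold U'
  rw [Fintype.mem_piFinset]
  refine forall_congr' fun i => ?_
  rcases le_or_gt i j with h | h
  · simp [h]
  · simp [not_le.2 h]

theorem card_U (j : Fin s) : (U j).card = 2 ^ (j.1 + 1) := by
  unfold U
  rw [Fintype.card_piFinset]
  have h1 : ∀ i : Fin s, (if i ≤ j then (univ : Finset (ZMod 2)) else {0}).card =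
      if i ≤ j then 2 else 1 := by
    intro i
    split_ifs
    · rw [Finset.card_univ, ZMod.card]
    · exact card_singleton _
  rw [prod_congr rfl fun i _ => h1 i, prod_ite, prod_const_one, mul_one, prod_const]
  congr 1
  rw [← Fin.card_Iic j]
  congr 1
  ext i
  simp

theorem card_U' (j : Fin s) : (U' j).card = 2 ^ (s - 1 - j.1) := by
  unfold U'
  rw [Fintype.card_piFinset]
  have h1 : ∀ i : Fin s, (if i ≤ j then ({0} : Finset (ZMod 2)) else univ).card =
      if i ≤ j then 1 else 2 := by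
    intro i
    split_ifs
    · exact card_singleton _
    · rw [Finset.card_univ, ZMod.card]
  rw [prod_congr rfl fun i _ => h1 i, prod_ite, prod_const_one, one_mul, prod_const]
  congr 1
  have h2 := Fin.card_Ioi j
  have h3 : (univ.filter fun i : Fin s => ¬ i ≤ j) = Ioi j := by
    ext i
    simp
  rw [h3, h2]

theorem half_U {j : Fin s} {y : Fin s → ZMod 2} (hy : y ∉ U' j) :
    ((U j).filter fun x => y ⬝ᵥ x = 1).card = 2 ^ j.1 := by
  rw [mem_U'] at hy
  push Not at hy
  obtain ⟨i, hij, hi⟩ := hy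
  have hz : ∀ a : ZMod 2, a = 0 ∨ a = 1 := by decide
  have hi1 : y ⬝ᵥ (Pi.single i 1) = 1 := by
    rw [dotProduct_single, mul_one]
    exact (hz (y i)).resolve_left hi
  have hadd : ∀ x : Fin s → ZMod 2, x ∈ U j → x + Pi.single i 1 ∈ U j := by
    intro x hx
    rw [mem_U] at hx ⊢
    intro k hk
    rw [Pi.add_apply, hx k hk, zero_add, Pi.single_apply, if_neg (ne_of_gt (lt_of_le_of_lt hij hk))]
  have h1 : ((U j).filter fun x => y ⬝ᵥ x = 1).card =
      ((U j).filter fun x => ¬ y ⬝ᵥ x = 1).card := by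
    refine Finset.card_bij (fun x _ => x + Pi.single i 1) ?_ ?_ ?_
    · intro x hx
      rw [Finset.mem_filter] at hx ⊢
      refine ⟨hadd x hx.1, ?_⟩
      rw [dotProduct_add, hx.2, hi1]
      decide
    · intro a _ c _ h
      exact add_right_cancel h
    · intro x hx
      rw [Finset.mem_filter] at hx
      refine ⟨x + Pi.single i 1, ?_, ?_⟩
      · rw [Finset.mem_filter]
        refine ⟨hadd x hx.1, ?_⟩
        rw [dotProduct_add, hi1, (hz _).resolve_right hx.2, zero_add]
      · have h3 : (Pi.single i 1 + Pi.single i 1 : Fin s → ZMod 2) = 0 := by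
          funext k
          rw [Pi.add_apply]
          exact CharTwo.add_self_eq_zero _
        rw [add_assoc, h3, add_zero]
  have h2 := Finset.card_filter_add_card_filter_not (s := U j) (fun x => y ⬝ᵥ x = 1)
  rw [card_U, pow_succ] at h2
  omega

theorem zero_U {j : Fin s} {y : Fin s → ZMod 2} (hy : y ∈ U' j) :
    ((U j).filter fun x => y ⬝ᵥ x = 1).card = 0 := by
  rw [mem_U'] at hy
  rw [Finset.card_eq_zero, Finset.filter_eq_empty_iff]
  intro x hx h
  rw [mem_U] at hx
  have h2 : y ⬝ᵥ x = 0 := by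
    unfold dotProduct
    refine Finset.sum_eq_zero fun i _ => ?_
    rcases le_or_gt i j with h3 | h3
    · rw [hy i h3, zero_mul]
    · rw [hx i h3, mul_zero]
  rw [h2] at h
  exact zero_ne_one h

/-- the vertices: `q` for each label outside `U j`, `q - r` for each label in `U j` -/
def Dom (j : Fin s) (q r : ℕ) : Finset ((Fin s → ZMod 2) × Fin q) :=
  univ.filter fun x => x.1 ∈ U j → r ≤ x.2.1

theorem card_A (hs : 1 ≤ s) {j : Fin s} {q r : ℕ} (hr : r ≤ q) {y : Fin s → ZMod 2}
    (hy : y ≠ 0) : ((Dom j q r).filter fun x => y ⬝ᵥ x.1 = 1).card +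
      r * ((U j).filter fun x => y ⬝ᵥ x = 1).card = 2 ^ (s - 1) * q := by
  have h1 : (univ.filter fun x : (Fin s → ZMod 2) × Fin q => y ⬝ᵥ x.1 = 1) =
      (univ.filter fun x : Fin s → ZMod 2 => y ⬝ᵥ x = 1) ×ˢ (univ : Finset (Fin q)) := by
    ext x
    simp
  have h2 : (univ.filter fun x : (Fin s → ZMod 2) × Fin q => y ⬝ᵥ x.1 = 1).card =
      2 ^ (s - 1) * q := by
    rw [h1, card_product, Finset.card_univ, Fintype.card_fin]
    have h2 := half_count hy
    have h3 : 2 ^ s = 2 * 2 ^ (s - 1) := by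
      rw [← pow_succ']
      congr 1
      omega
    rw [h3] at h2
    rw [Nat.eq_of_mul_eq_mul_left (by norm_num) h2]
  have h3 : (((U j).filter fun x => y ⬝ᵥ x = 1) ×ˢ
      (univ.filter fun a : Fin q => a.1 < r)).card =
      r * ((U j).filter fun x => y ⬝ᵥ x = 1).card := by
    rw [card_product, mul_comm]
    congr 1
    have h4 : ((univ.filter fun a : Fin q => a.1 < r).map Fin.valEmbedding) = range r := by
      ext a
      simp only [mem_map, mem_filter, mem_univ, true_and, Fin.valEmbedding_apply, mem_range]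
      constructor
      · rintro ⟨b, hb, rfl⟩
        exact hb
      · intro ha
        exact ⟨⟨a, ha.trans_le hr⟩, ha, rfl⟩
    rw [← card_map Fin.valEmbedding, h4, card_range]
  rw [← h3, ← h2, ← card_union_of_disjoint]
  · congr 1
    ext x
    simp only [Dom, mem_union, mem_filter, mem_univ, true_and, mem_product]
    constructor
    · rintro (h | h)
      · exact h.2
      · exact h.1.2
    · intro h
      by_cases h5 : x.1 ∈ U j → r ≤ x.2.1
      · exact Or.inl ⟨h5, h⟩
      · push Not at h5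
        exact Or.inr ⟨⟨h5.1, h⟩, h5.2⟩
  · refine Finset.disjoint_left.2 fun x hx hx' => ?_
    simp only [Dom, mem_filter, mem_univ, true_and, mem_product] at hx hx'
    have := hx.1 hx'.1.1
    omega

/-- **upper bound**: `n = 2^(s-1) q - 2^j r` with `2^(j+1) r ≤ q` -/
theorem gen_le {s n q r : ℕ} (j : Fin s) (hn : n + 2 ^ j.1 * r = 2 ^ (s - 1) * q)
    (hq : 2 * (2 ^ j.1 * r) ≤ q) : m n s + 2 ≤ 2 ^ s + 2 ^ (s - 1 - j.1) := by
  classical
  have hs : 1 ≤ s := by have := j.2; omega
  have hrq : r ≤ q := by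
    have : 1 ≤ 2 ^ j.1 := Nat.one_le_two_pow
    nlinarith
  set c := 2 ^ j.1 * r with hc
  -- the label used for the edge `y`
  have hlab : ∀ y : Fin s → ZMod 2, ∃ w : Fin s → ZMod 2, y ∈ U' j → y ≠ 0 →
      y ⬝ᵥ w = 1 ∧ w ∉ U j := by
    intro y
    by_cases hy : y ∈ U' j ∧ y ≠ 0
    · obtain ⟨i, hi⟩ := Function.ne_iff.1 hy.2
      have hz : ∀ a : ZMod 2, a = 0 ∨ a = 1 := by decide
      refine ⟨Pi.single i 1, fun _ _ => ⟨?_, ?_⟩⟩
      · rw [dotProduct_single, mul_one]
        exact (hz (y i)).resolve_left hi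
      · intro h
        rw [mem_U] at h
        have hij : j < i := by
          by_contra h'
          exact hi (mem_U'.1 hy.1 i (not_lt.1 h'))
        have := h i hij
        rw [Pi.single_apply, if_pos rfl] at this
        exact one_ne_zero this
    · exact ⟨0, fun h1 h2 => absurd ⟨h1, h2⟩ hy⟩
  choose w hw using hlab
  set R : (Fin s → ZMod 2) → Finset ((Fin s → ZMod 2) × Fin q) := fun y =>
    if y ∈ U' j then univ.filter fun x => x.1 = w y ∧ x.2.1 < c else ∅ with hR
  set R' : (Fin s → ZMod 2) → Finset ((Fin s → ZMod 2) × Fin q) := fun y =>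
    if y ∈ U' j then univ.filter fun x => x.1 = w y ∧ c ≤ x.2.1 ∧ x.2.1 < 2 * c else ∅ with hR'
  set A : (Fin s → ZMod 2) → Finset ((Fin s → ZMod 2) × Fin q) := fun y =>
    (Dom j q r).filter fun x => y ⬝ᵥ x.1 = 1 with hA
  set F : Finset (Finset ℕ) := ((univ.erase 0).image fun y => (A y \ R y).map (io s q)) ∪
    (((U' j).erase 0).image fun y => (A y \ R' y).map (io s q)) with hF
  -- cardinality of the pieces
  have hcR : ∀ y, y ∈ U' j → (R y).card = c ∧ (R' y).card = c := by
    intro y hy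
    have h1 : R y = ({w y} : Finset _) ×ˢ (univ.filter fun a : Fin q => a.1 < c) := by
      ext x
      simp only [hR, if_pos hy, mem_filter, mem_univ, true_and, mem_product, mem_singleton]
    have h2 : R' y = ({w y} : Finset _) ×ˢ
        (univ.filter fun a : Fin q => c ≤ a.1 ∧ a.1 < 2 * c) := by
      ext x
      simp only [hR', if_pos hy, mem_filter, mem_univ, true_and, mem_product, mem_singleton]
    constructor
    · rw [h1, card_product, card_singleton, one_mul, ← card_map Fin.valEmbedding]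
      have h4 : ((univ.filter fun a : Fin q => a.1 < c).map Fin.valEmbedding) = range c := by
        ext a
        simp only [mem_map, mem_filter, mem_univ, true_and, Fin.valEmbedding_apply, mem_range]
        constructor
        · rintro ⟨b, hb, rfl⟩
          exact hb
        · intro ha
          exact ⟨⟨a, by omega⟩, ha, rfl⟩
      rw [h4, card_range]
    · rw [h2, card_product, card_singleton, one_mul, ← card_map Fin.valEmbedding]
      have h4 : ((univ.filter fun a : Fin q => c ≤ a.1 ∧ a.1 < 2 * c).map Fin.valEmbedding) =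
          Ico c (2 * c) := by
        ext a
        simp only [mem_map, mem_filter, mem_univ, true_and, Fin.valEmbedding_apply, mem_Ico]
        constructor
        · rintro ⟨b, hb, rfl⟩
          exact hb
        · intro ha
          exact ⟨⟨a, by omega⟩, ha, rfl⟩
      rw [h4, Nat.card_Ico]
      omega
  have hsub : ∀ y, y ≠ 0 → R y ⊆ A y ∧ R' y ⊆ A y := by
    intro y hy0
    by_cases hy : y ∈ U' j
    · obtain ⟨h1, h2⟩ := hw y hy hy0
      constructor
      · intro x hx
        simp only [hR, if_pos hy, mem_filter, mem_univ, true_and] at hx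
        simp only [hA, Dom, mem_filter, mem_univ, true_and, hx.1, h1, and_true]
        exact fun h => absurd h h2
      · intro x hx
        simp only [hR', if_pos hy, mem_filter, mem_univ, true_and] at hx
        simp only [hA, Dom, mem_filter, mem_univ, true_and, hx.1, h1, and_true]
        exact fun h => absurd h h2
    · simp [hR, hR', hy]
  have hcA : ∀ y, y ≠ 0 → (A y \ R y).card = n ∧ (A y \ R' y).card = n := by
    intro y hy0
    have h1 := card_A hs (j := j) hrq hy0
    rw [card_sdiff_of_subset (hsub y hy0).1, card_sdiff_of_subset (hsub y hy0).2]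
    by_cases hy : y ∈ U' j
    · rw [zero_U hy, mul_zero, add_zero] at h1
      rw [(hcR y hy).1, (hcR y hy).2]
      have h2 : (A y).card = 2 ^ (s - 1) * q := h1
      omega
    · rw [half_U hy, mul_comm] at h1
      have h2 : (A y).card + 2 ^ j.1 * r = 2 ^ (s - 1) * q := h1
      simp only [hR, hR', if_neg hy, card_empty]
      omega
  have hF1 : ∀ y, y ≠ 0 → (A y \ R y).map (io s q) ∈ F := fun y hy =>
    mem_union_left _ (mem_image_of_mem _ (mem_erase.2 ⟨hy, mem_univ _⟩))
  have hF2 : ∀ y, y ≠ 0 → (A y \ R' y).map (io s q) ∈ F := by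
    intro y hy0
    by_cases hy : y ∈ U' j
    · exact mem_union_right _ (mem_image_of_mem _ (mem_erase.2 ⟨hy0, hy⟩))
    · have h1 := hF1 y hy0
      simp only [hR, if_neg hy] at h1
      simp only [hR', if_neg hy]
      exact h1
  have hnot : ¬ HasB s F := by
    refine split_not hs (Dom j q r) R R' ?_ ?_ F hF1 hF2
    · intro y x hx hx'
      by_cases hy : y ∈ U' j
      · simp only [hR, hR', if_pos hy, mem_filter, mem_univ, true_and] at hx hx'
        omega
      · simp [hR, hy] at hx
    · intro y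
      refine ⟨w y, fun x hx => ?_, fun x hx => ?_⟩
      · by_cases hy : y ∈ U' j
        · simp only [hR, if_pos hy, mem_filter, mem_univ, true_and] at hx
          exact hx.1
        · simp [hR, hy] at hx
      · by_cases hy : y ∈ U' j
        · simp only [hR', if_pos hy, mem_filter, mem_univ, true_and] at hx
          exact hx.1
        · simp [hR', hy] at hx
  have hcF : ∀ B ∈ F, B.card = n := by
    intro B hB
    rcases mem_union.1 hB with h | h
    · obtain ⟨y, hy, rfl⟩ := mem_image.1 h
      rw [card_map, (hcA y (mem_erase.1 hy).1).1]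
    · obtain ⟨y, hy, rfl⟩ := mem_image.1 h
      rw [card_map, (hcA y (mem_erase.1 hy).1).2]
  have h1 : m n s ≤ F.card := Nat.sInf_le ⟨F, rfl, hcF, hnot⟩
  have h2 : F.card ≤ (2 ^ s - 1) + (2 ^ (s - 1 - j.1) - 1) := by
    refine (card_union_le _ _).trans (Nat.add_le_add (card_image_le.trans ?_)
      (card_image_le.trans ?_))
    · rw [card_erase_of_mem (mem_univ _), Finset.card_univ, Fintype.card_fun, ZMod.card,
        Fintype.card_fin]
    · rw [card_erase_of_mem (show (0 : Fin s → ZMod 2) ∈ U' j from mem_U'.2 fun i _ => rfl),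
        card_U']
  have h3 : 1 ≤ 2 ^ s := Nat.one_le_two_pow
  have h4 : 1 ≤ 2 ^ (s - 1 - j.1) := Nat.one_le_two_pow
  omega

/-- **for every `s`, every `n ≥ 2^(2s-1)` divisible by `2^j`, `j < s`:**
`m(n,s) ≤ 2^s + 2^(s-1-j) - 2` -/
theorem gen {s n j : ℕ} (hj : j < s) (hn : 2 ^ (2 * s - 1) ≤ n) (hd : 2 ^ j ∣ n) :
    m n s + 2 ≤ 2 ^ s + 2 ^ (s - 1 - j) := by
  obtain ⟨k, rfl⟩ := hd
  set P := 2 ^ (s - 1 - j) with hP
  have hP1 : 1 ≤ P := Nat.one_le_two_pow
  have hPs : 2 ^ j * P = 2 ^ (s - 1) := by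
    rw [hP, ← pow_add]
    congr 1
    omega
  have hs2 : 2 ^ (2 * s - 1) = 2 ^ (s - 1) * 2 ^ s := by
    rw [← pow_add]
    congr 1
    omega
  set q := (k + (P - 1)) / P with hq
  have h1 : k ≤ P * q := by
    have := Nat.div_add_mod (k + (P - 1)) P
    have h2 := Nat.mod_lt (k + (P - 1)) (by omega : 0 < P)
    rw [← hq] at this
    omega
  have h2 : P * q ≤ k + (P - 1) := by
    rw [hq]
    exact Nat.mul_div_le _ _
  refine gen_le (q := q) (r := P * q - k) ⟨j, hj⟩ ?_ ?_
  · show 2 ^ j * k + 2 ^ j * (P * q - k) = 2 ^ (s - 1) * q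
    rw [← mul_add, ← hPs, mul_assoc]
    congr 1
    omega
  · show 2 * (2 ^ j * (P * q - k)) ≤ q
    have h3 : P * q - k ≤ P - 1 := by omega
    have h4 : 2 ^ j * (P * q - k) ≤ 2 ^ j * (P - 1) := Nat.mul_le_mul_left _ h3
    have h5 : 2 ^ s = 2 * (2 ^ j * P) := by
      rw [hPs, ← pow_succ']
      congr 1
      omega
    have h6 : 2 ^ j * (P - 1) ≤ 2 ^ j * P := Nat.mul_le_mul_left _ (by omega)
    -- `q ≥ 2 ^ s`
    have h7 : 2 ^ (s - 1) * 2 ^ s ≤ 2 ^ (s - 1) * q := by
      rw [← hs2]
      refine hn.trans ?_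
      rw [← hPs, mul_assoc]
      exact Nat.mul_le_mul_left _ h1
    have h8 : 2 ^ s ≤ q := Nat.le_of_mul_le_mul_left h7 (by positivity)
    omega

end

end Pool.Agent.PB22U
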